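import Pool.Agent.H474_Inj.PSMax

/-!
# Fréchet modules without injective coresolutions: formal power series

Over the ideal `X ℂ[[X]]` of formal power series without constant term (a Fréchet algebra without
unit) no nonzero Fréchet module has an injective coresolution. Over the unital Fréchet algebra
`ℂ[[X]]` no nonzero unital Fréchet module has a coresolution by unital Fréchet modules that are
injective among unital Fréchet modules.
-/

open scoped PowerSeries.WithPiTopology

universe u

namespace Pool.Agent.Results.MP_8296bc_an.FormalPowerSeries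

open Pool.Agent.H474_Inj

theorem result :
    (FrechetAlgebra PSIdeal ∧
      (∃ X : FrechetModule.{u} PSIdeal, Nontrivial X.carrier) ∧
      ∀ X : FrechetModule.{u} PSIdeal, Nontrivial X.carrier → ¬ HasInjectiveCoresolution X) ∧
    (FrechetAlgebra (PowerSeries ℂ) ∧
      (∃ X : FrechetModule.{u} (PowerSeries ℂ), Unital X ∧ Nontrivial X.carrier) ∧
      ∀ X : FrechetModule.{u} (PowerSeries ℂ), Unital X → Nontrivial X.carrier →
        ¬ HasUInjectiveCoresolution X) := by
  refine ⟨⟨psIdeal_frechet, exists_nontrivial _, fun X hX h => ?_⟩, instPSA, exists_unital,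
    fun X _ hX h => ?_⟩
  · obtain ⟨J, φ, hJ, -, hφ⟩ := h.embeds
    exact not_subsingleton_of_embeds hφ hX (psIdeal_vanish J hJ)
  · obtain ⟨J, φ, hJ1, hJ, -, hφ⟩ := h.embeds
    exact not_subsingleton_of_embeds hφ hX (ps_vanish J hJ1 hJ)

end Pool.Agent.Results.MP_8296bc_an.FormalPowerSeries
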