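import Pool.Agent.H474_Inj.PSMax

/-!
# Modules with elements annihilated by the algebra have no injective coresolutions

Let `A` be a Fréchet algebra such that there is no neighbourhood of zero in `A` on which all
continuous linear functionals that vanish on products are bounded (that is, the quotient of `A` by
the closed linear span of all products is not normable). Then no Fréchet module over `A` that has a
nonzero element `x` with `A x = 0` (for example, a nonzero module with zero action) has an injective
coresolution.
-/

open Topology

universe u v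

namespace Pool.Agent.Results.MP_8296bc_an.TrivialModules

open Pool.Agent.H474_Inj

theorem result (A : Type v) [NonUnitalRing A] [Module ℂ A] [TopologicalSpace A]
    (_hA : FrechetAlgebra A)
    (hnorm : ¬ ∃ V ∈ 𝓝 (0 : A), ∀ β : A →L[ℂ] ℂ, (∀ a b, β (a * b) = 0) →
      ∃ C : ℝ, ∀ a ∈ V, ‖β a‖ ≤ C)
    (X : FrechetModule.{u} A) (x : X.carrier) (hx : x ≠ 0) (hAx : ∀ a, X.act a x = 0) :
    ¬ HasInjectiveCoresolution X := by
  intro h
  obtain ⟨J, φ, hJ, hφ1, hφ⟩ := h.embeds
  refine hnorm (ann_bound J hJ (φ x) (fun h => hx ?_) fun a => ?_)
  · exact hφ (h.trans (map_zero φ).symm)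
  · rw [← hφ1, hAx, map_zero]

end Pool.Agent.Results.MP_8296bc_an.TrivialModules
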